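import Pool.Agent.Helper34K9.PQ.Stm2
import Pool.Agent.Erdos456.Mertens

/-! Leaf VL (helper86): the theorem of Mertens, from below -/

set_option autoImplicit false

namespace Pool.Agent.Helper86K9.PQ

open Finset
open Pool.Agent.Helper34K9.PQ

theorem log_one_sub {x : ℝ} (h0 : 0 ≤ x) (h1 : x ≤ 1 / 2) :
    -(x + 2 * x ^ 2) ≤ Real.log (1 - x) := by
  have h2 : 0 < 1 - x := by linarith
  have h3 : Real.log (1 - x)⁻¹ ≤ (1 - x)⁻¹ - 1 := Real.log_le_sub_one_of_pos (inv_pos.2 h2)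
  rw [Real.log_inv] at h3
  have h4 : (1 - x)⁻¹ - 1 ≤ x + 2 * x ^ 2 := by
    rw [sub_le_iff_le_add, inv_le_iff_one_le_mul₀ h2]
    nlinarith [mul_nonneg (sq_nonneg x) (by linarith : (0 : ℝ) ≤ 1 - 2 * x)]
  linarith

theorem V_low : ∃ c : ℝ, 0 < c ∧ ∀ N : ℕ, 3 ≤ N → c / Real.log N ≤ V N := by
  obtain ⟨C, hC⟩ := Pool.Agent.Erdos456.Mert.mertens_inv
  have hs : Summable (fun n : ℕ => 1 / (n : ℝ) ^ 2) := Real.summable_one_div_nat_pow.2 (by norm_num)
  set K : ℝ := ∑' n : ℕ, 1 / (n : ℝ) ^ 2 with hK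
  refine ⟨Real.exp (-(C + 2 * K)), Real.exp_pos _, fun N hN => ?_⟩
  have hN3 : (3 : ℝ) ≤ N := by exact_mod_cast hN
  have hlog : 0 < Real.log N := Real.log_pos (by linarith)
  have hp : ∀ p ∈ primes N, 0 ≤ 1 / (p : ℝ) ∧ 1 / (p : ℝ) ≤ 1 / 2 := by
    intro p hp
    have h1 : 2 ≤ p := (Finset.mem_filter.1 hp).2.two_le
    have h2 : (2 : ℝ) ≤ p := by exact_mod_cast h1
    exact ⟨by positivity, one_div_le_one_div_of_le (by norm_num) h2⟩
  have h1 : Real.log (V N) = ∑ p ∈ primes N, Real.log (1 - 1 / (p : ℝ)) := by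
    unfold V
    exact Real.log_prod fun p hp' => by have := hp p hp'; linarith
  have hV0 : 0 < V N := by
    unfold V
    exact Finset.prod_pos fun p hp' => by have := hp p hp'; linarith
  have h2 : ∑ p ∈ primes N, (-(1 / (p : ℝ) + 2 * (1 / (p : ℝ)) ^ 2)) ≤ Real.log (V N) := by
    rw [h1]
    exact Finset.sum_le_sum fun p hp' => log_one_sub (hp p hp').1 (hp p hp').2
  have h3 : ∑ p ∈ primes N, (1 / (p : ℝ)) ^ 2 ≤ K := by
    have h4 : ∑ p ∈ primes N, (1 / (p : ℝ)) ^ 2 = ∑ p ∈ primes N, 1 / (p : ℝ) ^ 2 :=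
      Finset.sum_congr rfl fun p _ => by rw [div_pow, one_pow]
    rw [h4]
    exact hs.sum_le_tsum _ fun n _ => by positivity
  have h5 : ∑ p ∈ primes N, 1 / (p : ℝ) ≤ Real.log (Real.log N) + C := by
    have := (abs_le.1 (hC N hN)).2
    have e : ∑ p ∈ primes N, 1 / (p : ℝ) =
        ∑ p ∈ (Finset.Icc 1 N).filter Nat.Prime, (1 : ℝ) / p := rfl
    rw [e]
    linarith
  have h6 : -(Real.log (Real.log N) + C + 2 * K) ≤ Real.log (V N) := by
    refine le_trans ?_ h2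
    rw [Finset.sum_neg_distrib, Finset.sum_add_distrib, ← Finset.mul_sum]
    linarith
  have h7 : Real.exp (-(Real.log (Real.log N) + C + 2 * K)) ≤ V N := by
    have := Real.exp_le_exp.2 h6
    rwa [Real.exp_log hV0] at this
  refine le_trans (le_of_eq ?_) h7
  rw [show -(Real.log (Real.log N) + C + 2 * K) = -(C + 2 * K) - Real.log (Real.log N) by ring,
    Real.exp_sub, Real.exp_log hlog]

theorem vl : S_VL := by
  obtain ⟨c, hc, hV⟩ := V_low
  refine ⟨c / 2, by positivity, ⌈Real.exp 3⌉₊, fun X hX => ?_⟩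
  have hX1 : Real.exp 3 ≤ X := (Nat.le_ceil _).trans (by exact_mod_cast hX)
  have hX0 : (0 : ℝ) < X := (Real.exp_pos 3).trans_le hX1
  have hL : 3 ≤ Real.log X := by
    rw [Real.le_log_iff_exp_le hX0]
    exact hX1
  have hN : 3 ≤ ww X := by
    have h1 : (3 : ℝ) ≤ (ww X : ℝ) := hL.trans (Nat.le_ceil _)
    exact_mod_cast h1
  have hN2 : (ww X : ℝ) ≤ Real.log X ^ 2 := by
    have h1 : (ww X : ℝ) < Real.log X + 1 := Nat.ceil_lt_add_one (by linarith)
    nlinarith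
  have hN3 : (3 : ℝ) ≤ (ww X : ℝ) := by exact_mod_cast hN
  have h3 : Real.log (ww X) ≤ 2 * Real.log (Real.log X) := by
    have := Real.log_le_log (by linarith) hN2
    rwa [Real.log_pow, Nat.cast_ofNat] at this
  have h4 : 0 < Real.log (ww X) := Real.log_pos (by linarith)
  refine le_trans ?_ (hV _ hN)
  rw [div_div]
  exact div_le_div_of_nonneg_left hc.le h4 h3

end Pool.Agent.Helper86K9.PQ
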